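import Pool.Agent.J6H49.SY.Defs2

/-! # SY-RHS: random right sides -/

set_option autoImplicit false

namespace Pool.Agent.J6H8.SY.Rhs

open Pool.Agent.J6H49.SY

/-- the sign of a value: `1` if the equation is satisfied, `-1` otherwise -/
noncomputable def sgn (c : Bool) : ℝ := if c = false then 1 else -1

theorem sum_xor (g : Bool → ℝ) (w : Bool) : ∑ c : Bool, g (c ^^ w) = g false + g true := by
  cases w
  · simp [add_comm]
  · simp

theorem sum_exp {q : ℕ} (a : ℝ) (w : Fin q → Bool) :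
    ∑ b : Fin q → Bool, Real.exp (a * ∑ v, sgn (b v ^^ w v)) =
      (Real.exp a + Real.exp (-a)) ^ q := by
  have h1 : ∀ b : Fin q → Bool, Real.exp (a * ∑ v, sgn (b v ^^ w v)) =
      ∏ v, Real.exp (a * sgn (b v ^^ w v)) := by
    intro b
    rw [Finset.mul_sum, Real.exp_sum]
  rw [Finset.sum_congr rfl fun b _ => h1 b]
  have h2 := Finset.prod_univ_sum (fun _ : Fin q => (Finset.univ : Finset Bool))
    (fun v c => Real.exp (a * sgn (c ^^ w v)))
  rw [Fintype.piFinset_univ] at h2
  rw [← h2]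
  have h3 : ∀ v : Fin q, ∑ c : Bool, Real.exp (a * sgn (c ^^ w v)) = Real.exp a + Real.exp (-a) := by
    intro v
    rw [sum_xor (fun c => Real.exp (a * sgn c)) (w v)]
    simp [sgn]
  rw [Finset.prod_congr rfl fun v _ => h3 v, Finset.prod_const, Finset.card_univ, Fintype.card_fin]

theorem sum_sgn {q : ℕ} (s : Fin q → Bool) :
    ∑ v, sgn (s v) = 2 * ((Finset.univ.filter fun v => s v = false).card : ℝ) - q := by
  have h1 : ∀ v, sgn (s v) = 2 * (if s v = false then (1 : ℝ) else 0) - 1 := by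
    intro v
    unfold sgn
    split_ifs <;> norm_num
  rw [Finset.sum_congr rfl fun v _ => h1 v, Finset.sum_sub_distrib, ← Finset.mul_sum,
    Finset.sum_boole]
  simp

theorem aux (k n q : ℕ) (hk : 1 ≤ k) (hn : 1 ≤ n) (hq : q = 2 * k ^ 2 * n)
    (f : Fin q → Fin 3 → Fin n) : ∃ b : Fin q → Bool, ∀ z : Fin n × Fin 3 → Bool,
      ((Finset.univ.filter fun v => add f b z v = false).card : ℝ) ≤
        (1 / 2 + 1 / (k : ℝ)) * (q : ℝ) := by
  have hk0 : (0 : ℝ) < k := by exact_mod_cast hk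
  have hn0 : (0 : ℝ) < n := by exact_mod_cast hn
  set a : ℝ := 2 / k with ha
  have ha0 : 0 < a := by positivity
  have hqr : (q : ℝ) = 2 * (k : ℝ) ^ 2 * n := by rw [hq]; push_cast; ring
  have haq : a ^ 2 / 2 * q = 4 * n := by
    rw [hqr, ha]; field_simp; ring
  let W : (Fin n × Fin 3 → Bool) → Fin q → Bool := fun z v =>
    ((z (f v 0, 0) ^^ z (f v 1, 1)) ^^ z (f v 2, 2))
  have hadd : ∀ b z v, add f b z v = (b v ^^ W z v) := fun b z v => rfl
  -- the average
  have hsum : ∑ b : Fin q → Bool, ∑ z : Fin n × Fin 3 → Bool,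
      Real.exp (a * ∑ v, sgn (add f b z v)) ≤
      ∑ b : Fin q → Bool, (8 : ℝ) ^ n * Real.exp (4 * n) := by
    rw [Finset.sum_comm]
    have h1 : ∀ z : Fin n × Fin 3 → Bool, ∑ b : Fin q → Bool,
        Real.exp (a * ∑ v, sgn (add f b z v)) ≤ 2 ^ q * Real.exp (4 * n) := by
      intro z
      have h2 := sum_exp a (W z)
      have h3 : ∑ b : Fin q → Bool, Real.exp (a * ∑ v, sgn (add f b z v)) =
          (Real.exp a + Real.exp (-a)) ^ q := by
        rw [← h2]
        rfl
      rw [h3]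
      have h4 : Real.exp a + Real.exp (-a) ≤ 2 * Real.exp (a ^ 2 / 2) := by
        have h5 := Real.cosh_le_exp_half_sq a
        rw [Real.cosh_eq] at h5
        linarith
      calc (Real.exp a + Real.exp (-a)) ^ q ≤ (2 * Real.exp (a ^ 2 / 2)) ^ q :=
            pow_le_pow_left₀ (by positivity) h4 q
        _ = 2 ^ q * Real.exp (4 * n) := by
            rw [mul_pow, ← Real.exp_nat_mul, ← haq]
            congr 2
            ring
    refine (Finset.sum_le_sum fun z _ => h1 z).trans (le_of_eq ?_)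
    rw [Finset.sum_const, Finset.sum_const, nsmul_eq_mul, nsmul_eq_mul, Finset.card_univ,
      Finset.card_univ, Fintype.card_fun, Fintype.card_fun]
    simp only [Fintype.card_bool, Fintype.card_prod, Fintype.card_fin]
    have : (8 : ℝ) ^ n = 2 ^ (n * 3) := by
      rw [mul_comm n 3, pow_mul]; norm_num
    rw [this]
    push_cast
    ring
  obtain ⟨b, -, hb⟩ := Finset.exists_le_of_sum_le Finset.univ_nonempty hsum
  refine ⟨b, fun z => ?_⟩
  by_contra hcon
  rw [not_le] at hcon
  have h1 : Real.exp (a * ∑ v, sgn (add f b z v)) ≤ (8 : ℝ) ^ n * Real.exp (4 * n) :=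
    (Finset.single_le_sum (f := fun z => Real.exp (a * ∑ v, sgn (add f b z v)))
      (fun z _ => (Real.exp_pos _).le) (Finset.mem_univ z)).trans hb
  have h2 : 8 * (n : ℝ) < a * ∑ v, sgn (add f b z v) := by
    rw [sum_sgn]
    have h3 : (2 / (k : ℝ)) * q < 2 * ((Finset.univ.filter fun v => add f b z v = false).card : ℝ)
        - q := by
      have h4 : (1 / 2 + 1 / (k : ℝ)) * (q : ℝ) = q / 2 + (1 / (k : ℝ)) * q := by ring
      rw [h4] at hcon
      have h5 : (2 / (k : ℝ)) * q = 2 * ((1 / (k : ℝ)) * q) := by ring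
      rw [h5]
      linarith
    calc 8 * (n : ℝ) = a * ((2 / (k : ℝ)) * q) := by
          rw [hqr, ha]; field_simp; ring
      _ < _ := mul_lt_mul_of_pos_left h3 ha0
  have h6 : Real.exp (8 * n) < (8 : ℝ) ^ n * Real.exp (4 * n) :=
    (Real.exp_lt_exp.mpr h2).trans_le h1
  have h7 : Real.exp (8 * (n : ℝ)) = Real.exp 4 ^ n * Real.exp (4 * n) := by
    rw [← Real.exp_nat_mul, ← Real.exp_add]
    congr 1
    ring
  have h8 : (8 : ℝ) ≤ Real.exp 4 := by
    have h9 : (2 : ℝ) ≤ Real.exp 1 := by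
      have := Real.add_one_le_exp (1 : ℝ); linarith
    have h10 : Real.exp 4 = Real.exp 1 ^ 4 := by rw [← Real.exp_nat_mul]; norm_num
    rw [h10]
    calc (8 : ℝ) ≤ 2 ^ 4 := by norm_num
      _ ≤ Real.exp 1 ^ 4 := pow_le_pow_left₀ (by norm_num) h9 4
  rw [h7] at h6
  have h11 := lt_of_mul_lt_mul_right h6 (Real.exp_pos _).le
  exact absurd (pow_le_pow_left₀ (by norm_num) h8 n) (not_le.mpr h11)

theorem main : S_RHS := fun k n hk hn f => aux k n _ hk hn rfl f

end Pool.Agent.J6H8.SY.Rhs
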